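import Pool.Agent.Lib.MP_721eb4_an.LB.Cert
import Pool.Agent.Lib.MP_721eb4_an.LB.OperMain
import Pool.Agent.Lib.MP_721eb4_an.LB.Discr

/-! A lower bound for the complex Grothendieck constant: `κ_ℂ ≥ 1.38`. -/

set_option autoImplicit false

open scoped ComplexConjugate

namespace Pool.Agent.Results.MP_721eb4_an.LowerBound138

/-- Every constant `K` which is admissible in the complex Grothendieck inequality
is at least `1.38`. Here `x i` and `y j` are vectors of `ℂ^m` of Euclidean norm at most `1`. -/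
theorem result (K : ℝ)
    (hK : ∀ (n m : ℕ) (a : Matrix (Fin n) (Fin n) ℂ),
      (∀ s t : Fin n → ℂ, (∀ i, ‖s i‖ ≤ 1) → (∀ j, ‖t j‖ ≤ 1) →
        ‖∑ i, ∑ j, a i j * s i * t j‖ ≤ 1) →
      ∀ x y : Fin n → Fin m → ℂ, (∀ i, ∑ k, ‖x i k‖ ^ 2 ≤ 1) → (∀ j, ∑ k, ‖y j k‖ ^ 2 ≤ 1) →
        ‖∑ i, ∑ j, a i j * ∑ k, x i k * conj (y j k)‖ ≤ K) :
    (138 / 100 : ℝ) ≤ K := by
  have hK' : K ∈ GLB.KSet := by
    intro n m a ha x y hx hy
    have hsq : ∀ v : EuclideanSpace ℂ (Fin m), ‖v‖ ≤ 1 → ∑ k, ‖conj (v k)‖ ^ 2 ≤ 1 := by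
      intro v hv
      have h1 := EuclideanSpace.norm_sq_eq v
      have h2 : ‖v‖ ^ 2 ≤ 1 := pow_le_one₀ (norm_nonneg _) hv
      simp only [RCLike.norm_conj]
      rw [← h1]; exact h2
    have h := hK n m a ha (fun i k => conj (x i k)) (fun j k => conj (y j k))
      (fun i => hsq _ (hx i)) (fun j => hsq _ (hy j))
    have e : ∀ i j, (inner ℂ (x i) (y j) : ℂ) = ∑ k, conj (x i k) * conj (conj (y j k)) := by
      intro i j
      have h3 : (@inner ℂ (EuclideanSpace ℂ (Fin m)) InnerProductSpace.toInner (x i) (y j) : ℂ)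
          = ∑ k, conj (x i k) * conj (conj (y j k)) := by
        rw [PiLp.inner_apply]
        refine Finset.sum_congr rfl fun k _ => ?_
        rw [Complex.conj_conj, mul_comm]
        rfl
      exact h3
    simp_rw [e]
    exact h
  have h := GLB.of_op_bound (16 / 25) (1 / (69 / 50)) (by norm_num) (by norm_num)
    (fun n f g => GLB.op_bound (16 / 25) (1 / (69 / 50)) (by norm_num) GLB.one_cert n f g) K hK'
  rw [mul_one_div, le_div_iff₀ (by norm_num)] at h
  linarith

end Pool.Agent.Results.MP_721eb4_an.LowerBound138
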